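import Pool.Agent.Q299.LK.Part

/-! MP_ec2393_nt: the part with the fewest letters `x₀` of an element of the double shuffle Lie
algebra `dm` satisfies the linearized Kashiwara-Vergne equations (push-invariance and
circ-neutrality) with `x₀` and `x₁` exchanged; bounds for the dimension of `dm_N`. -/

set_option autoImplicit false

namespace Pool.Agent.Results.MP_ec2393_nt.LowestLetterPart

open Pool.Agent.H777R4.DM Pool.Agent.Q299.LK

attribute [local instance 100] LieRing.ofAssociativeRing

/-- The elements of `dm`, homogeneous of weight `N`, all of whose words contain at least `k`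
letters `x₀`. -/
def Fil (N k : ℕ) : Submodule ℚ A where
  carrier := {ψ | IsDM ψ ∧ ∀ u, co ψ u ≠ 0 → u.length = N ∧ k ≤ u.count 0}
  add_mem' := by
    rintro ψ φ ⟨h1, h2⟩ ⟨h3, h4⟩
    refine ⟨isDM_add h1 h3, fun u hu => ?_⟩
    rw [co_add] at hu
    by_cases h : co ψ u = 0
    · refine h4 u fun h' => hu ?_
      rw [h, h', add_zero]
    · exact h2 u h
  zero_mem' := ⟨isDM_zero, fun u hu => absurd (co_zero u) hu⟩
  smul_mem' := by
    rintro c ψ ⟨h1, h2⟩
    refine ⟨isDM_smul h1 c, fun u hu => h2 u fun h' => hu ?_⟩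
    rw [co_smul, h', mul_zero]

/-- The linearized Kashiwara-Vergne space with `x₀` and `x₁` exchanged: the elements `P` of the free
Lie algebra, homogeneous of weight `N` and with exactly `m` letters `x₀` in each word, which are
push-invariant (`u x₀ v` and `v x₀ u` have the same coefficient) and circ-neutral (the coefficients of
the words `x₁ⁿ x₀ x₁^{c₁} ⋯ x₀ x₁^{c_k}` have sum `0` over the cyclic rotations of
`(c₁, …, c_k)`). Here `zz [c₁, …, c_k] = x₀ x₁^{c₁} ⋯ x₀ x₁^{c_k}`. -/
def LKV (N m : ℕ) : Submodule ℚ A where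
  carrier := {P | P ∈ LieX ∧ (∀ u, co P u ≠ 0 → u.length = N ∧ u.count 0 = m) ∧
    (∀ u v, co P (u ++ 0 :: v) = co P (v ++ 0 :: u)) ∧
    ∀ (n : ℕ) (l : List ℕ), l ≠ [] →
      ∑ i ∈ Finset.range l.length, co P (List.replicate n 1 ++ zz (l.rotate i)) = 0}
  add_mem' := by
    rintro P Q ⟨h1, h2, h3, h4⟩ ⟨h1', h2', h3', h4'⟩
    refine ⟨LieX.add_mem h1 h1', fun u hu => ?_, fun u v => ?_, fun n l hl => ?_⟩
    · rw [co_add] at hu
      by_cases h : co P u = 0
      · refine h2' u fun h' => hu ?_
        rw [h, h', add_zero]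
      · exact h2 u h
    · rw [co_add, co_add, h3, h3']
    · simp only [co_add]
      rw [Finset.sum_add_distrib, h4 n l hl, h4' n l hl, add_zero]
  zero_mem' := ⟨LieX.zero_mem, fun u hu => absurd (co_zero u) hu, fun u v => by
    rw [co_zero, co_zero], fun n l _ => by simp only [co_zero]; exact Finset.sum_const_zero⟩
  smul_mem' := by
    rintro c P ⟨h1, h2, h3, h4⟩
    refine ⟨LieX.smul_mem c h1, fun u hu => h2 u fun h' => hu ?_, fun u v => ?_, fun n l hl => ?_⟩
    · rw [co_smul, h', mul_zero]
    · rw [co_smul, co_smul, h3]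
    · simp only [co_smul]
      rw [← Finset.mul_sum, h4 n l hl, mul_zero]

theorem zz_count0 (l : List ℕ) : (zz l).count 0 = l.length := by
  induction l with
  | nil => rfl
  | cons a l ih =>
    rw [zz_cons, List.count_cons_self, List.count_append, ih, List.length_cons,
      List.count_replicate]
    simp

theorem zz_count1 (l : List ℕ) : (zz l).count 1 = l.sum := by
  induction l with
  | nil => rfl
  | cons a l ih =>
    rw [zz_cons, List.count_cons_of_ne (by decide), List.count_append, ih, List.sum_cons,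
      List.count_replicate_self]

section

variable {ψ : A} {N m : ℕ}

theorem hM_of (h2 : 2 ≤ m) (hψ : ψ ∈ Fil N m) : ∀ k, 1 ≤ k → ∀ a : List ℕ, a.length = N - m →
    m ≤ N → a.sum + k = m → Pool.Agent.TH19.DS.sh k a (fun l => co ψ (wordX l)) = 0 := by
  intro k hk a ha hmN hs
  rw [Y759.QS.sh_eq_st]
  refine Y759.QS.harmonic hψ.1 (fun v hv => (hψ.2 v hv).1) (fun v hv => (hψ.2 v hv).2) a
    (by omega) [k] (by simp) (fun x hx => ?_) (by simpa using hs) (Or.inr ?_)
  · rw [List.mem_singleton] at hx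
    omega
  intro he
  have := congrArg List.length he
  simp at this
  omega

theorem rev_co (hψ : ψ ∈ Fil N m) (u : List (Fin 2)) :
    co ψ u.reverse = (-1) ^ (N + 1) * co ψ u := by
  have h := Y759.QS.rev_of hψ.1 u
  by_cases hu : co ψ u = 0
  · rw [h, hu, mul_zero, mul_zero]
  · rw [h, (hψ.2 u hu).1]

theorem push_co (h2 : 2 ≤ m) (hψ : ψ ∈ Fil N m) (u v : List (Fin 2))
    (h0 : u.count 0 + v.count 0 + 1 = m) : co ψ (u ++ 0 :: v) = co ψ (v ++ 0 :: u) := by
  by_cases hN : u.length + v.length + 1 = N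
  · have c1 := Pool.Agent.TH19.DS.count_len u
    have c2 := Pool.Agent.TH19.DS.count_len v
    refine push (r := N - m) (m := m) (c := (-1) ^ (N + 1)) (Y759.QS.hS_of hψ.1)
      (Y759.QS.hT_of hψ.1) ?_ (rev_co hψ) _ u v rfl h0 (by omega)
    intro k hk a ha hs
    exact hM_of h2 hψ k hk a ha (by omega) hs
  · have e1 : co ψ (u ++ 0 :: v) = 0 := by
      by_contra hne
      have := (hψ.2 _ hne).1
      simp at this
      omega
    have e2 : co ψ (v ++ 0 :: u) = 0 := by
      by_contra hne
      have := (hψ.2 _ hne).1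
      simp at this
      omega
    rw [e1, e2]

theorem circ_co (h2 : 2 ≤ m) (hψ : ψ ∈ Fil N m) (n : ℕ) (l : List ℕ) (hl : l.length = m) :
    ∑ i ∈ Finset.range l.length, co ψ (List.replicate n 1 ++ zz (l.rotate i)) = 0 := by
  by_cases hN : n + l.sum + m = N
  · obtain ⟨a, l', rfl⟩ : ∃ a l', l = a :: l' := by
      rcases l with _ | ⟨a, l'⟩
      · simp at hl; omega
      · exact ⟨a, l', rfl⟩
    rw [List.length_cons] at hl
    rw [List.sum_cons] at hN
    have hE := Y759.QS.single (N := N) (m := m) hψ.1 (fun v hv => (hψ.2 v hv).1)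
      (fun v hv => (hψ.2 v hv).2) h2 n (List.replicate a 1 ++ zz l')
      (by rw [List.count_append, zz_count0, List.count_replicate]; simp; omega)
      (by rw [List.count_append, zz_count1, List.count_replicate_self]; omega)
    rw [Y759.QS.En_rep, En_zz] at hE
    have hrot : ∀ i ∈ Finset.range (l'.length + 1),
        co ψ (List.replicate a 1 ++ (zz (l'.take i) ++ zz (n :: l'.drop i))) =
          co ψ (List.replicate n 1 ++ zz ((a :: l').rotate (i + 1))) := by
      intro i hi
      rw [Finset.mem_range] at hi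
      rw [List.rotate_eq_drop_append_take (by rw [List.length_cons]; omega), List.drop_succ_cons,
        List.take_succ_cons, zz_append, zz_cons, zz_cons]
      have e := push_co h2 hψ (List.replicate a 1 ++ zz (l'.take i))
        (List.replicate n 1 ++ zz (l'.drop i)) (by
          rw [List.count_append, List.count_append, zz_count0, zz_count0, List.count_replicate,
            List.count_replicate, List.length_take, List.length_drop]
          simp
          omega)
      simp only [List.append_assoc] at e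
      exact e
    rw [Finset.sum_congr rfl hrot] at hE
    have h3 := Finset.sum_range_succ' (fun i => co ψ (List.replicate n 1 ++ zz ((a :: l').rotate i)))
      (l'.length + 1)
    rw [hE, zero_add, Finset.sum_range_succ] at h3
    have h4 : (a :: l').rotate (l'.length + 1) = a :: l' := by
      rw [← List.length_cons (a := a), List.rotate_length]
    rw [h4, List.rotate_zero] at h3
    rw [List.length_cons]
    linarith
  · refine Finset.sum_eq_zero fun i _ => ?_
    by_contra hne
    have h5 := (hψ.2 _ hne).1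
    have h6 := Pool.Agent.TH19.DS.count_len (List.replicate n (1 : Fin 2) ++ zz (l.rotate i))
    rw [List.count_append, List.count_append, zz_count0, zz_count1, List.count_replicate_self,
      List.count_replicate, List.length_rotate, (List.rotate_perm l i).sum_eq] at h6
    have h7 : (if ((1 : Fin 2) == 0) = true then n else 0) = 0 := if_neg (by decide)
    omega

theorem mem_lkv (h2 : 2 ≤ m) (hψ : ψ ∈ Fil N m) : part m ψ ∈ LKV N m := by
  refine ⟨part_lie hψ.1.mem m, fun u hu => ?_, fun u v => ?_, fun n l _ => ?_⟩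
  · rw [co_part] at hu
    split_ifs at hu with h
    · exact ⟨(hψ.2 u hu).1, h⟩
    · exact absurd rfl hu
  · rw [co_part, co_part]
    have e : (u ++ 0 :: v).count 0 = (v ++ 0 :: u).count 0 := by
      simp [List.count_append]; omega
    rw [e]
    split_ifs with h
    · refine push_co h2 hψ u v ?_
      rw [← h]
      simp [List.count_append]
      omega
    · rfl
  · by_cases hl : l.length = m
    · have h := circ_co h2 hψ n l hl
      rw [← h]
      refine Finset.sum_congr rfl fun i _ => ?_
      rw [co_part, if_pos]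
      rw [List.count_append, zz_count0, List.count_replicate, List.length_rotate, hl]
      simp
    · refine Finset.sum_eq_zero fun i _ => ?_
      rw [co_part, if_neg]
      rw [List.count_append, zz_count0, List.count_replicate, List.length_rotate]
      simpa using hl

theorem ker_iff (hψ : ψ ∈ Fil N m) : ψ ∈ Fil N (m + 1) ↔ part m ψ = 0 := by
  constructor
  · intro h
    refine co_ext fun u => ?_
    rw [co_part, co_zero]
    split_ifs with h1
    · by_contra hne
      have := (h.2 u hne).2
      omega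
    · rfl
  · intro h
    refine ⟨hψ.1, fun u hu => ⟨(hψ.2 u hu).1, ?_⟩⟩
    have h1 := (hψ.2 u hu).2
    rcases Nat.lt_or_ge m (u.count 0) with h2 | h2
    · exact h2
    · exfalso
      apply hu
      have h3 : u.count 0 = m := by omega
      have h4 := co_part m ψ u
      rw [if_pos h3, h, co_zero] at h4
      exact h4.symm

end

theorem finite_words (N : ℕ) : Finite {u : List (Fin 2) // u.length = N} :=
  (List.finite_length_eq (Fin 2) N : {u : List (Fin 2) | u.length = N}.Finite)

/-- spaces of elements whose words all have length `N` -/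
theorem fin_of (V : Submodule ℚ A) (N : ℕ) (h : ∀ ψ ∈ V, ∀ u, co ψ u ≠ 0 → u.length = N) :
    Module.Finite ℚ V := by
  have := finite_words N
  have : Fintype {u : List (Fin 2) // u.length = N} := Fintype.ofFinite _
  let T : V →ₗ[ℚ] ({u : List (Fin 2) // u.length = N} → ℚ) :=
    { toFun := fun ψ s => co ψ.1 s.1
      map_add' := fun ψ φ => by funext s; simp [co_add]
      map_smul' := fun c ψ => by funext s; simp [co_smul] }
  refine Module.Finite.of_injective T ?_
  rintro ⟨ψ, h1⟩ ⟨φ, h3⟩ he
  apply Subtype.ext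
  refine co_ext fun u => ?_
  by_cases hN : u.length = N
  · exact congrFun he ⟨u, hN⟩
  · change co ψ u = co φ u
    rw [not_not.1 fun h' => hN (h ψ h1 u h'), not_not.1 fun h' => hN (h φ h3 u h')]

instance fin_Fil (N k : ℕ) : Module.Finite ℚ (Fil N k) :=
  fin_of _ N fun _ hψ u hu => (hψ.2 u hu).1

instance fin_LKV (N m : ℕ) : Module.Finite ℚ (LKV N m) :=
  fin_of _ N fun _ hψ u hu => (hψ.2.1 u hu).1

theorem Fil_anti (N : ℕ) {k l : ℕ} (h : k ≤ l) : Fil N l ≤ Fil N k :=
  fun _ hψ => ⟨hψ.1, fun u hu => ⟨(hψ.2 u hu).1, h.trans (hψ.2 u hu).2⟩⟩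

/-- the graded pieces -/
theorem step {N m : ℕ} (h2 : 2 ≤ m) :
    Module.finrank ℚ (Fil N m ⧸ (Fil N (m + 1)).submoduleOf (Fil N m)) ≤
      Module.finrank ℚ (LKV N m) := by
  let T : Fil N m →ₗ[ℚ] LKV N m :=
    ((part m).comp (Fil N m).subtype).codRestrict _ fun ψ => mem_lkv h2 ψ.2
  have hT : LinearMap.ker T = (Fil N (m + 1)).submoduleOf (Fil N m) := by
    ext ψ
    rw [LinearMap.mem_ker]
    constructor
    · intro h
      exact (ker_iff ψ.2).2 (congrArg Subtype.val h)
    · intro h
      exact Subtype.ext ((ker_iff ψ.2).1 h)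
  rw [← hT, T.quotKerEquivRange.finrank_eq]
  exact Submodule.finrank_le _

theorem dim_le (N : ℕ) {k l : ℕ} (h : k ≤ l) : Module.finrank ℚ (Fil N k) ≤
    Module.finrank ℚ (Fil N k ⧸ (Fil N l).submoduleOf (Fil N k)) + Module.finrank ℚ (Fil N l) := by
  rw [← Submodule.finrank_quotient_add_finrank ((Fil N l).submoduleOf (Fil N k)),
    (Submodule.submoduleOfEquivOfLe (Fil_anti N h)).finrank_eq]

theorem top_zero (N : ℕ) {k : ℕ} (h : N ≤ 2 * k) : Fil N k = ⊥ := by
  rw [eq_bot_iff]
  intro ψ hψ
  rw [Submodule.mem_bot]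
  exact Y759.QS.half hψ.1 (fun u hu => (hψ.2 u hu).1) fun u hu => by
    have := (hψ.2 u hu).2
    omega

theorem dim_sum (N : ℕ) : ∀ j k : ℕ, 2 ≤ k → k + j = (N + 1) / 2 →
    Module.finrank ℚ (Fil N k) ≤ ∑ m ∈ Finset.Ico k ((N + 1) / 2), Module.finrank ℚ (LKV N m) := by
  intro j
  induction j with
  | zero =>
    intro k _ hk
    rw [top_zero N (by omega), finrank_bot]
    exact Nat.zero_le _
  | succ j ih =>
    intro k h2 hk
    rw [Finset.sum_eq_sum_Ico_succ_bot (by omega)]
    exact (dim_le N (Nat.le_succ k)).trans (Nat.add_le_add (step h2) (ih (k + 1) (by omega) (by omega)))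

theorem dim_tail (N k : ℕ) (h2 : 2 ≤ k) : Module.finrank ℚ (Fil N k) ≤
    ∑ m ∈ Finset.Ico k ((N + 1) / 2), Module.finrank ℚ (LKV N m) := by
  rcases Nat.lt_or_ge ((N + 1) / 2) k with h | h
  · rw [top_zero N (by omega), finrank_bot]
    exact Nat.zero_le _
  · exact dim_sum N ((N + 1) / 2 - k) k h2 (by omega)

/-- the word `x₀ x₁^a x₀ x₁^b` -/
def word (a b : ℕ) : List (Fin 2) :=
  0 :: (List.replicate a 1 ++ 0 :: List.replicate b 1)

theorem low_odd {N : ℕ} (hN : Odd N) :
    Module.finrank ℚ (Fil N 0 ⧸ (Fil N 3).submoduleOf (Fil N 0)) ≤ 1 := by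
  have := (Y759.QS.quot_le (Fil N 0) (Fil N 3) {List.replicate (N - 1) 0 ++ [1]}
    fun ψ hψ h => ⟨hψ.1, fun u hu => ⟨(hψ.2 u hu).1, Y759.QS.filt_odd hψ.1
      (fun v hv => (hψ.2 v hv).1) hN (h _ (Finset.mem_singleton_self _)) u hu⟩⟩).2
  simpa using this

theorem low_even {N : ℕ} (hN : Even N) :
    Module.finrank ℚ (Fil N 0 ⧸ (Fil N 4).submoduleOf (Fil N 0)) ≤ (N - 2) / 6 := by
  have := (Y759.QS.quot_le (Fil N 0) (Fil N 4)
    ((Finset.range ((N - 2) / 6)).image fun j => word (N - 3 - 2 * j) (2 * j + 1))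
    fun ψ hψ h => ⟨hψ.1, fun u hu => ⟨(hψ.2 u hu).1, Y759.QS.filt_even hψ.1
      (fun v hv => (hψ.2 v hv).1) hN (fun j hj =>
        h _ (Finset.mem_image_of_mem _ (Finset.mem_range.2 hj))) u hu⟩⟩).2
  refine this.trans (Finset.card_image_le.trans ?_)
  rw [Finset.card_range]

/-- Let `ψ` be an element of `dm` of weight `N` all of whose words contain at least `m ≥ 2` letters
`x₀`. (1) The part of `ψ` with exactly `m` letters `x₀` is a Lie element, push-invariant and
circ-neutral (an element of `LKV N m`), and it vanishes only if all words of `ψ` contain at least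
`m + 1` letters `x₀`. (2) Hence the graded pieces of the filtration of `dm_N` by the number of
letters `x₀` have at most the dimension of `LKV N m`. (3) The dimension of `dm_N` is at most
`1 + ∑_{3 ≤ m < N/2} dim LKV N m` if `N` is odd and `⌊(N-2)/6⌋ + ∑_{4 ≤ m < N/2} dim LKV N m` if `N`
is even. -/
theorem result :
    (∀ N m : ℕ, 2 ≤ m → ∀ ψ ∈ Fil N m,
      part m ψ ∈ LKV N m ∧ (part m ψ = 0 ↔ ψ ∈ Fil N (m + 1))) ∧
    (∀ N m : ℕ, 2 ≤ m → Module.Finite ℚ (LKV N m) ∧ Module.Finite ℚ (Fil N m) ∧
      Module.finrank ℚ (Fil N m ⧸ (Fil N (m + 1)).submoduleOf (Fil N m)) ≤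
        Module.finrank ℚ (LKV N m)) ∧
    (∀ N : ℕ, Odd N → Module.finrank ℚ (Fil N 0) ≤
      1 + ∑ m ∈ Finset.Ico 3 ((N + 1) / 2), Module.finrank ℚ (LKV N m)) ∧
    (∀ N : ℕ, Even N → Module.finrank ℚ (Fil N 0) ≤
      (N - 2) / 6 + ∑ m ∈ Finset.Ico 4 (N / 2), Module.finrank ℚ (LKV N m)) := by
  refine ⟨fun N m h2 ψ hψ => ⟨mem_lkv h2 hψ, (ker_iff hψ).symm⟩,
    fun N m h2 => ⟨fin_LKV N m, fin_Fil N m, step h2⟩, fun N hN => ?_, fun N hN => ?_⟩
  · exact (dim_le N (Nat.zero_le 3)).trans
      (Nat.add_le_add (low_odd hN) (dim_tail N 3 (by norm_num)))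
  · have h := dim_tail N 4 (by norm_num)
    have e : (N + 1) / 2 = N / 2 := by
      obtain ⟨k, rfl⟩ := hN
      omega
    rw [e] at h
    exact (dim_le N (Nat.zero_le 4)).trans (Nat.add_le_add (low_even hN) h)

end Pool.Agent.Results.MP_ec2393_nt.LowestLetterPart
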