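import Pool.Agent.Q263.ZO.Series
import Pool.Agent.TH19.DS.E

/-!
# Free odd generation of the double shuffle Lie algebra: a zero-one law

Let `dm_w` be the part of weight `w` of the double shuffle Lie algebra `dm` (`dmW w`), and `λ_w` the
dimension of the part of weight `w` of the free Lie algebra on `s_3, s_5, s_7, ...`, that is (theorem of
Poincare, Birkhoff and Witt) `∏ (1 - x^i)^(-λ_i) = 1 / (1 - x^3 - x^5 - ...) = ∑ c_w x^w`. Let
`∑ U_w x^w = ∏ (1 - x^i)^(-dim dm_i)` be the Hilbert series of the universal enveloping algebra of `dm`.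
It is known that `dm` contains a free Lie algebra with one generator in each odd weight `≥ 3`
(Drinfeld, Brown, Furusho), so that `λ_w ≤ dim dm_w` (hypothesis `hle`), and that Q1 is equivalent to
the equalities `dim dm_w = λ_w` for all `w`. Theorem:

1. If `dim dm_n ≠ λ_n` for one weight `n`, then `U_w ≥ c_w + U_{w-n}` for all `w ≥ n`; so
   `U_w ≥ c_w + c_{w-n} + c_{w-2n} + ...`.
2. If Q1 fails and `n` is the smallest weight with `dim dm_n ≠ λ_n`, then `U_w = c_w` for `w < n`,
   and `U_w > c_w` for all other `w`, except possibly for `w = n + 1, n + 2, n + 4`.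
3. Q1 holds if and only if `U_w = c_w` for infinitely many `w`.
4. Q1 holds if and only if `liminf U_w / c_w = 1`.
5. If `U_w < c_w + c_{w-n}` for one `w ≥ n`, then `dim dm_n = λ_n`.
-/

set_option autoImplicit false

open Filter Finset

namespace Pool.Agent.Results.MP_ec2393_nt.OneWeightDecides

open Pool.Agent.H777R4.DM Pool.Agent.Q263.ZO

/-- The elements of `dm` which are homogeneous of weight `w`. -/
def dmW (w : ℕ) : Submodule ℚ A where
  carrier := {ψ | IsDM ψ ∧ ∀ u, co ψ u ≠ 0 → u.length = w}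
  add_mem' := by
    rintro ψ φ ⟨h1, h2⟩ ⟨h3, h4⟩
    refine ⟨isDM_add h1 h3, fun u hu => ?_⟩
    rw [co_add] at hu
    by_cases h : co ψ u = 0
    · refine h4 u fun h' => hu ?_
      rw [h, h', add_zero]
    · exact h2 u h
  zero_mem' := ⟨isDM_zero, fun u hu => absurd (co_zero u) hu⟩
  smul_mem' := by
    rintro c ψ ⟨h1, h2⟩
    refine ⟨isDM_smul h1 c, fun u hu => h2 u fun h' => hu ?_⟩
    rw [co_smul, h', mul_zero]

/-- the dimension of `dm_w` -/
noncomputable def l (w : ℕ) : ℕ := Module.finrank ℚ (dmW w)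

/-- the coefficients of the Hilbert series `∏ (1 - x^i)^(-dim dm_i)` -/
noncomputable def U (w : ℕ) : ℕ := HS.u l w

theorem dmW_finite (w : ℕ) : Module.Finite ℚ (dmW w) := by
  refine (TH19.DS.fin_of_words (dmW w) (Finset.univ.image (fun f : Fin w → Fin 2 => List.ofFn f)) ?_).1
  rintro ψ ⟨_, h2⟩ h3
  apply al_ext
  intro u
  rw [co_zero]
  by_contra hne
  have hlen := h2 u hne
  refine hne (h3 u ?_)
  rw [Finset.mem_image]
  subst hlen
  exact ⟨u.get, Finset.mem_univ _, List.ofFn_get u⟩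

section

variable (lam : ℕ → ℕ) (hlam : ∀ w, HS.u lam w = HS.c w) (hle : ∀ w, 1 ≤ w → lam w ≤ l w)

include hlam hle

theorem step (n : ℕ) (hn : 1 ≤ n) (hne : l n ≠ lam n) (w : ℕ) (hw : n ≤ w) :
    HS.c w + U (w - n) ≤ U w := by
  let m : ℕ → ℕ := fun i => if i = 0 then l 0 else lam i
  have hm : ∀ i, 1 ≤ i → m i = lam i := fun i hi => if_neg (by omega)
  have h1 : ∀ i, m i ≤ l i := by
    intro i
    rcases Nat.eq_zero_or_pos i with rfl | hi
    · exact le_rfl
    · rw [hm i hi]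
      exact hle i hi
  have h2 := HS.step l m h1 n hn (by rw [hm n hn]; exact hne) w hw
  rwa [HS.congr m lam w (fun i hi _ => hm i hi), hlam] at h2

theorem ge (w : ℕ) : HS.c w ≤ U w := by
  let m : ℕ → ℕ := fun i => if i = 0 then l 0 else lam i
  have hm : ∀ i, 1 ≤ i → m i = lam i := fun i hi => if_neg (by omega)
  have h1 : ∀ i, m i ≤ l i := by
    intro i
    rcases Nat.eq_zero_or_pos i with rfl | hi
    · exact le_rfl
    · rw [hm i hi]
      exact hle i hi
  have h2 := HS.mono l m h1 w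
  rwa [HS.congr m lam w (fun i hi _ => hm i hi), hlam] at h2

theorem step' (n : ℕ) (hn : 1 ≤ n) (hne : l n ≠ lam n) (w : ℕ) (hw : n ≤ w) :
    HS.c w + HS.c (w - n) ≤ U w := by
  have h1 := step lam hlam hle n hn hne w hw
  have h2 := ge lam hlam hle (w - n)
  omega

theorem sum_le (n : ℕ) (hn : 1 ≤ n) (hne : l n ≠ lam n) (w j : ℕ) (hw : j * n ≤ w) :
    ∑ k ∈ range (j + 1), HS.c (w - k * n) ≤ U w := by
  induction j generalizing w with
  | zero =>
    rw [zero_add, Finset.sum_range_one, Nat.zero_mul, Nat.sub_zero]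
    exact ge lam hlam hle w
  | succ j ih =>
    have e : (j + 1) * n = j * n + n := by ring
    have h1 := step lam hlam hle n hn hne w (by omega)
    have h2 := ih (w - n) (by omega)
    rw [Finset.sum_range_succ', Nat.zero_mul, Nat.sub_zero]
    have h3 : ∑ k ∈ range (j + 1), HS.c (w - (k + 1) * n) = ∑ k ∈ range (j + 1), HS.c (w - n - k * n) := by
      refine Finset.sum_congr rfl fun k _ => ?_
      congr 1
      rw [Nat.sub_sub]
      congr 1
      ring
    rw [h3]
    omega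

theorem c_le_pow (n w : ℕ) (hw : n + 5 ≤ w) : HS.c w ≤ 2 ^ n * HS.c (w - n) := by
  have h1 := d_le_pow (w - n - 5) n
  have e1 : HS.c w = d (w - n - 5 + n + 2) := by
    rw [show w = (w - n - 5 + n + 2) + 3 by omega, HS.c_add]
    congr 1 <;> omega
  have e2 : HS.c (w - n) = d (w - n - 5 + 2) := by
    rw [show w - n = (w - n - 5 + 2) + 3 by omega, HS.c_add]
    congr 1 <;> omega
  rw [e1, e2]
  exact h1

end

/-- the theorem -/
theorem result (lam : ℕ → ℕ) (hlam : ∀ w, HS.u lam w = HS.c w) (hle : ∀ w, 1 ≤ w → lam w ≤ l w) :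
    (HS.c 0 = 1 ∧ ∀ w, 1 ≤ w → HS.c w = ∑ k ∈ (Icc 3 w).filter Odd, HS.c (w - k)) ∧
    (∀ w, Module.Finite ℚ (dmW w)) ∧
    (∀ n, 1 ≤ n → l n ≠ lam n → ∀ w, n ≤ w → HS.c w + U (w - n) ≤ U w) ∧
    (∀ n, 1 ≤ n → l n ≠ lam n → ∀ w j, j * n ≤ w → ∑ k ∈ range (j + 1), HS.c (w - k * n) ≤ U w) ∧
    ((∀ w, 1 ≤ w → l w = lam w) ∨ ∃ n, 1 ≤ n ∧ l n ≠ lam n ∧ (∀ w < n, U w = HS.c w) ∧
      ∀ w, n ≤ w → w ≠ n + 1 → w ≠ n + 2 → w ≠ n + 4 → HS.c w < U w) ∧
    ((∀ w, 1 ≤ w → l w = lam w) ↔ ∃ᶠ w in atTop, U w = HS.c w) ∧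
    ((∀ w, 1 ≤ w → l w = lam w) ↔
      ∀ ε : ℝ, 0 < ε → ∃ᶠ w in atTop, (U w : ℝ) < (1 + ε) * HS.c w) ∧
    (∀ n w, 1 ≤ n → n ≤ w → U w < HS.c w + HS.c (w - n) → l n = lam n) := by
  have hlt : ∀ n, 1 ≤ n → l n ≠ lam n → ∀ w, n ≤ w → w ≠ n + 1 → w ≠ n + 2 → w ≠ n + 4 →
      HS.c w < U w := by
    intro n hn hne w hw h1 h2 h4
    have h5 := step' lam hlam hle n hn hne w hw
    have h6 := HS.c_pos (w - n) (by omega) (by omega) (by omega)
    omega
  have heq : (∀ w, 1 ≤ w → l w = lam w) → ∀ w, U w = HS.c w := by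
    intro h w
    unfold U
    rw [HS.congr l lam w (fun i hi _ => h i hi), hlam]
  refine ⟨⟨by simp [HS.c], HS.c_rec⟩, dmW_finite, step lam hlam hle, sum_le lam hlam hle, ?_, ?_, ?_, ?_⟩
  · classical
    by_cases h : ∀ w, 1 ≤ w → l w = lam w
    · exact Or.inl h
    · right
      push Not at h
      have hspec := Nat.find_spec h
      refine ⟨Nat.find h, hspec.1, hspec.2, fun w hw => ?_, hlt _ hspec.1 hspec.2⟩
      unfold U
      rw [HS.congr l lam w (fun i hi hiw => ?_), hlam]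
      by_contra hne
      exact Nat.find_min h (lt_of_le_of_lt hiw hw) ⟨hi, hne⟩
  · constructor
    · exact fun h => Frequently.of_forall (heq h)
    · intro h n hn
      by_contra hne
      obtain ⟨w, hw, hw2⟩ := (frequently_atTop.1 h) (n + 5)
      exact (hlt n hn hne w (by omega) (by omega) (by omega) (by omega)).ne' hw2
  · constructor
    · intro h ε hε
      rw [frequently_atTop]
      intro a
      refine ⟨a + 5, by omega, ?_⟩
      rw [heq h]
      have h1 := HS.c_pos (a + 5) (by omega) (by omega) (by omega)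
      have h2 : (1 : ℝ) ≤ HS.c (a + 5) := by exact_mod_cast h1
      nlinarith
    · intro h n hn
      by_contra hne
      obtain ⟨w, hw, hw2⟩ := (frequently_atTop.1 (h ((2 : ℝ) ^ n)⁻¹ (by positivity))) (n + 5)
      have h1 := step' lam hlam hle n hn hne w (by omega)
      have h3 := c_le_pow lam hlam hle n w hw
      have h4 : (HS.c w : ℝ) + HS.c (w - n) ≤ U w := by exact_mod_cast h1
      have h5 : (HS.c w : ℝ) ≤ 2 ^ n * HS.c (w - n) := by exact_mod_cast h3
      have h6 : ((2 : ℝ) ^ n)⁻¹ * HS.c w ≤ HS.c (w - n) := by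
        rw [inv_mul_le_iff₀ (by positivity)]
        exact h5
      linarith
  · intro n w hn hw h
    by_contra hne
    have := step' lam hlam hle n hn hne w hw
    omega

end Pool.Agent.Results.MP_ec2393_nt.OneWeightDecides
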